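import Pool.Agent.Helper96.GP.NDefs

/-!
# H4: sum of the cubes of the weights of the lines through a point
-/

open Finset
open scoped Classical

namespace GPG

noncomputable section

namespace G3b

/-- the primitive direction vector from `v` to `b` -/
def pdir (n v b : ℕ) : ℤ × ℤ :=
  ((px n b - px n v) / (gg n v b : ℤ), (py n b - py n v) / (gg n v b : ℤ))

theorem pdir_sup {n v b : ℕ} (h : v ≠ b) :
    max (pdir n v b).1.natAbs (pdir n v b).2.natAbs = pd n v b := by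
  have hg : 0 < gg n v b := gg_pos h
  have h1 : ((gg n v b : ℕ) : ℤ) ∣ (px n b - px n v) := Int.gcd_dvd_left _ _
  have h2 : ((gg n v b : ℕ) : ℤ) ∣ (py n b - py n v) := Int.gcd_dvd_right _ _
  obtain ⟨c, hc⟩ := h1
  obtain ⟨d, hd⟩ := h2
  have hg' : ((gg n v b : ℕ) : ℤ) ≠ 0 := by exact_mod_cast hg.ne'
  unfold pdir pd DD
  rw [hc, hd, Int.mul_ediv_cancel_left _ hg', Int.mul_ediv_cancel_left _ hg', Int.natAbs_mul,
    Int.natAbs_mul, Int.natAbs_natCast, Nat.mul_max_mul_left, Nat.mul_div_cancel_left _ hg]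

theorem pdir_det {n v b c : ℕ} (hb : v ≠ b) (hc : v ≠ c) (h : pdir n v b = pdir n v c) :
    det3 n v b c = 0 := by
  have hg : 0 < gg n v b := gg_pos hb
  have hg2 : 0 < gg n v c := gg_pos hc
  have h1 : ((gg n v b : ℕ) : ℤ) ∣ (px n b - px n v) := Int.gcd_dvd_left _ _
  have h2 : ((gg n v b : ℕ) : ℤ) ∣ (py n b - py n v) := Int.gcd_dvd_right _ _
  have h3 : ((gg n v c : ℕ) : ℤ) ∣ (px n c - px n v) := Int.gcd_dvd_left _ _
  have h4 : ((gg n v c : ℕ) : ℤ) ∣ (py n c - py n v) := Int.gcd_dvd_right _ _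
  unfold pdir at h
  rw [Prod.mk.injEq] at h
  have e1 := Int.mul_ediv_cancel' h1
  have e2 := Int.mul_ediv_cancel' h2
  have e3 := Int.mul_ediv_cancel' h3
  have e4 := Int.mul_ediv_cancel' h4
  unfold det3
  rw [← e1, ← e2, ← e3, ← e4, h.1, h.2]
  ring

theorem card_box (k : ℕ) (hk : 1 ≤ k) :
    ((((Icc (-(k : ℤ)) k) ×ˢ (Icc (-(k : ℤ)) k)).filter
      (fun p => max p.1.natAbs p.2.natAbs = k)).card : ℝ) ≤ 12 * k := by
  have hsub : (((Icc (-(k : ℤ)) k) ×ˢ (Icc (-(k : ℤ)) k)).filter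
      (fun p => max p.1.natAbs p.2.natAbs = k)) ⊆
      ((({(k : ℤ), -(k : ℤ)} : Finset ℤ) ×ˢ (Icc (-(k : ℤ)) k)) ∪
        ((Icc (-(k : ℤ)) k) ×ˢ ({(k : ℤ), -(k : ℤ)} : Finset ℤ))) := by
    intro p hp
    rw [mem_filter, mem_product, mem_Icc, mem_Icc] at hp
    rw [mem_union, mem_product, mem_product, mem_Icc, mem_Icc, mem_insert, mem_insert,
      mem_singleton, mem_singleton]
    omega
  have h1 := (card_le_card hsub).trans (card_union_le _ _)
  rw [card_product, card_product, Int.card_Icc] at h1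
  have h2 : ({(k : ℤ), -(k : ℤ)} : Finset ℤ).card ≤ 2 := card_le_two
  have h3 : ((k : ℤ) + 1 - -(k : ℤ)).toNat = 2 * k + 1 := by omega
  rw [h3] at h1
  have h4 : (((Icc (-(k : ℤ)) k) ×ˢ (Icc (-(k : ℤ)) k)).filter
      (fun p => max p.1.natAbs p.2.natAbs = k)).card ≤ 12 * k := by
    nlinarith
  exact_mod_cast h4

theorem two_points {n M : ℕ} {V : Finset ℕ} (hV : V ⊆ range (n ^ 2)) {i : Finset ℕ}
    (hi : i ∈ gls n V M) : ∃ a ∈ i, ∃ b ∈ i, a ≠ b := by
  unfold gls at hi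
  rw [mem_union, mem_image, mem_image] at hi
  rcases hi with ⟨q, hq, rfl⟩ | ⟨q, hq, rfl⟩
  · rw [mem_filter, mem_product] at hq
    refine ⟨q.1, ?_, q.2, ?_, hq.2.1⟩
    · exact mem_inter.2 ⟨hq.1.1, mem_gline.2 ⟨mem_range.1 (hV hq.1.1), det3_self1 _ _ _⟩⟩
    · exact mem_inter.2 ⟨hq.1.2, mem_gline.2 ⟨mem_range.1 (hV hq.1.2), det3_self2 _ _ _⟩⟩
  · rw [mem_filter, mem_product] at hq
    refine ⟨q.1, ?_, q.2, ?_, hq.2.1⟩
    · unfold ghalf
      exact mem_inter.2 ⟨hq.1.1, mem_filter.2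
        ⟨mem_gline.2 ⟨mem_range.1 (hV hq.1.1), det3_self1 _ _ _⟩, Iff.rfl⟩⟩
    · unfold ghalf
      exact mem_inter.2 ⟨hq.1.2, mem_filter.2
        ⟨mem_gline.2 ⟨mem_range.1 (hV hq.1.2), det3_self2 _ _ _⟩, hq.2.2.2⟩⟩

theorem line_pt {n M : ℕ} {V : Finset ℕ} (hV : V ⊆ range (n ^ 2)) {i : Finset ℕ} {v : ℕ}
    (hi : i ∈ (gls n V M).filter (fun i => v ∈ i ∧ ¬ gpre n M i)) :
    ∃ b, b ≠ v ∧ b < n ^ 2 ∧ v < n ^ 2 ∧ M < pd n v b ∧ i = V ∩ gline n v b := by
  rw [mem_filter] at hi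
  obtain ⟨hi, hv, hp⟩ := hi
  have hb : ∃ b ∈ i, b ≠ v := by
    obtain ⟨a, ha, b, hb, hab⟩ := two_points hV hi
    by_cases h : a = v
    · exact ⟨b, hb, fun h' => hab (h.trans h'.symm)⟩
    · exact ⟨a, ha, h⟩
  obtain ⟨b, hb, hbv⟩ := hb
  obtain ⟨hvV, hbV, h⟩ := gls_spec hi (Ne.symm hbv) hv hb
  refine ⟨b, hbv, mem_range.1 (hV hbV), mem_range.1 (hV hvV), ?_⟩
  rcases h with h | h
  · exact h
  · exact absurd ⟨v, hv, b, hb, Ne.symm hbv, h.1⟩ hp

end G3b

open G3b in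
/-- H4 -/
theorem cube_le_of
    (card_gline : ∀ (n a b : ℕ), a ≠ b → a < n ^ 2 → b < n ^ 2 →
      ((gline n a b).card : ℝ) ≤ 2 * n / pd n a b)
    (rho_bounds : ∀ (n t : ℕ), t < n ^ 2 → 17 / 20 ≤ rho n t ∧ rho n t ≤ 1999 / 1000)
    (n M : ℕ) (hM : 1 ≤ M) (V : Finset ℕ) (hV : V ⊆ range (n ^ 2)) (q : ℝ)
    (hq : 0 < q) (hn : 0 < n) (Lg : ℝ) (hL : 0 ≤ Lg)
    (hl : ∀ a < n ^ 2, ∀ b < n ^ 2, a ≠ b →
      ((V ∩ gline n a b).card : ℝ) ≤ q * (2 * (gline n a b).card + Lg)) (v : ℕ) :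
    ∑ i ∈ (gls n V M).filter (fun i => v ∈ i ∧ ¬ gpre n M i),
      (∑ z ∈ i.filter (fun z => z < v), lamV n V q z) ^ 3 ≤ 40000 / M + 100 * Lg ^ 3 / n := by
  set F := (gls n V M).filter (fun i => v ∈ i ∧ ¬ gpre n M i) with hF
  have key : ∀ i, i ∈ F → ∃ b, b ≠ v ∧ b < n ^ 2 ∧ v < n ^ 2 ∧ M < pd n v b ∧
      i = V ∩ gline n v b := fun i hi => line_pt hV hi
  choose! β hβ using key
  have hn0 : (0 : ℝ) < n := by exact_mod_cast hn
  have hM0 : (0 : ℝ) < M := by exact_mod_cast hM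
  -- weights of points
  have hlam0 : ∀ z, 0 ≤ lamV n V q z := by
    intro z
    unfold lamV
    split_ifs with hz
    · have := (rho_bounds n z (mem_range.1 (hV hz))).1
      positivity
    · exact le_rfl
  have hlam : ∀ z, lamV n V q z ≤ 2 / (q * n) := by
    intro z
    unfold lamV
    split_ifs with hz
    · have := (rho_bounds n z (mem_range.1 (hV hz))).2
      gcongr
      linarith
    · positivity
  -- weight of a line
  have hw : ∀ i ∈ F, (∑ z ∈ i.filter (fun z => z < v), lamV n V q z) ≤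
      8 / pd n v (β i) + 2 * Lg / n := by
    intro i hi
    obtain ⟨h1, h2, h3, h4, h5⟩ := hβ i hi
    have hpd : (0 : ℝ) < pd n v (β i) := by
      have : 0 < pd n v (β i) := by omega
      exact_mod_cast this
    have e1 : (∑ z ∈ i.filter (fun z => z < v), lamV n V q z) ≤ (i.card : ℝ) * (2 / (q * n)) := by
      calc (∑ z ∈ i.filter (fun z => z < v), lamV n V q z) ≤
          ∑ z ∈ i, lamV n V q z :=
            sum_le_sum_of_subset_of_nonneg (filter_subset _ _) (fun z _ _ => hlam0 z)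
        _ ≤ ∑ z ∈ i, 2 / (q * n) := sum_le_sum fun z _ => hlam z
        _ = (i.card : ℝ) * (2 / (q * n)) := by rw [sum_const, nsmul_eq_mul]
    have e2 : (i.card : ℝ) ≤ q * (2 * (2 * n / pd n v (β i)) + Lg) := by
      have := hl v h3 (β i) h2 (Ne.symm h1)
      rw [← h5] at this
      refine this.trans ?_
      have := card_gline n v (β i) (Ne.symm h1) h3 h2
      gcongr
    calc (∑ z ∈ i.filter (fun z => z < v), lamV n V q z) ≤ (i.card : ℝ) * (2 / (q * n)) := e1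
      _ ≤ (q * (2 * (2 * n / pd n v (β i)) + Lg)) * (2 / (q * n)) := by gcongr
      _ = 8 / pd n v (β i) + 2 * Lg / n := by
        field_simp
        ring
  have hcube : ∀ i ∈ F, (∑ z ∈ i.filter (fun z => z < v), lamV n V q z) ^ 3 ≤
      2048 / (pd n v (β i) : ℝ) ^ 3 + 32 * Lg ^ 3 / (n : ℝ) ^ 3 := by
    intro i hi
    have h0 : 0 ≤ ∑ z ∈ i.filter (fun z => z < v), lamV n V q z :=
      sum_nonneg fun z _ => hlam0 z
    have h1 := hw i hi
    have ha : (0 : ℝ) ≤ 8 / pd n v (β i) := by positivity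
    have hb : (0 : ℝ) ≤ 2 * Lg / n := by positivity
    calc (∑ z ∈ i.filter (fun z => z < v), lamV n V q z) ^ 3 ≤
        (8 / pd n v (β i) + 2 * Lg / n) ^ 3 := by gcongr
      _ ≤ 4 * ((8 / pd n v (β i)) ^ 3 + (2 * Lg / n) ^ 3) := by
        nlinarith [mul_nonneg (add_nonneg ha hb) (sq_nonneg (8 / (pd n v (β i) : ℝ) -
          2 * Lg / n))]
      _ = 2048 / (pd n v (β i) : ℝ) ^ 3 + 32 * Lg ^ 3 / (n : ℝ) ^ 3 := by ring
  -- number of lines
  have hinj : ∀ i ∈ F, ∀ j ∈ F, det3 n v (β i) (β j) = 0 → i = j := by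
    intro i hi j hj hd
    obtain ⟨h1, h2, h3, h4, h5⟩ := hβ i hi
    obtain ⟨k1, k2, k3, k4, k5⟩ := hβ j hj
    rw [h5, k5, gline_eq (Ne.symm h1) (Ne.symm k1) (mem_gline.2 ⟨h3, det3_self1 _ _ _⟩)
      (mem_gline.2 ⟨k2, hd⟩)]
  have hcard : (F.card : ℝ) ≤ (n : ℝ) ^ 2 := by
    have : F.card ≤ (range (n ^ 2)).card := by
      apply card_le_card_of_injOn β
      · intro i hi
        exact mem_coe.2 (mem_range.2 (hβ i hi).2.1)
      · intro i hi j hj hij
        apply hinj i hi j hj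
        rw [hij]
        exact det3_self2 _ _ _
    rw [card_range] at this
    exact_mod_cast this
  -- number of lines of a given direction
  have hdir : ∀ k : ℕ, 1 ≤ k → ((F.filter (fun i => pd n v (β i) = k)).card : ℝ) ≤ 12 * k := by
    intro k hk
    refine le_trans ?_ (card_box k hk)
    have : (F.filter (fun i => pd n v (β i) = k)).card ≤
        (((Icc (-(k : ℤ)) k) ×ˢ (Icc (-(k : ℤ)) k)).filter
      (fun p => max p.1.natAbs p.2.natAbs = k)).card := by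
      apply card_le_card_of_injOn (fun i => pdir n v (β i))
      · intro i hi
        rw [mem_coe, mem_filter] at hi
        have h := pdir_sup (n := n) (Ne.symm (hβ i hi.1).1)
        rw [hi.2] at h
        rw [mem_coe, mem_filter, mem_product, mem_Icc, mem_Icc]
        refine ⟨?_, h⟩
        dsimp only
        omega
      · intro i hi j hj hij
        rw [mem_coe, mem_filter] at hi hj
        exact hinj i hi.1 j hj.1 (pdir_det (Ne.symm (hβ i hi.1).1) (Ne.symm (hβ j hj.1).1) hij)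
    exact_mod_cast this
  -- the sum over the directions
  have hsum : ∑ i ∈ F, 2048 / (pd n v (β i) : ℝ) ^ 3 ≤ 40000 / (M : ℝ) := by
    set N := F.sup (fun i => pd n v (β i)) + M with hN
    have hmaps : ∀ i ∈ F, pd n v (β i) ∈ Ioc M N := by
      intro i hi
      rw [mem_Ioc]
      refine ⟨(hβ i hi).2.2.2.1, ?_⟩
      exact (le_sup (f := fun i => pd n v (β i)) hi).trans (Nat.le_add_right _ _)
    rw [← sum_fiberwise_of_maps_to hmaps]
    calc ∑ k ∈ Ioc M N, ∑ i ∈ F.filter (fun i => pd n v (β i) = k),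
          2048 / (pd n v (β i) : ℝ) ^ 3 ≤ ∑ k ∈ Ioc M N, 24576 * ((k : ℝ) ^ 2)⁻¹ := by
          apply sum_le_sum
          intro k hk
          have hk1 : 1 ≤ k := by
            have := (mem_Ioc.1 hk).1
            omega
          have hk0 : (0 : ℝ) < k := by exact_mod_cast hk1
          calc ∑ i ∈ F.filter (fun i => pd n v (β i) = k), 2048 / (pd n v (β i) : ℝ) ^ 3 =
              ∑ i ∈ F.filter (fun i => pd n v (β i) = k), 2048 / (k : ℝ) ^ 3 := by
                apply sum_congr rfl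
                intro i hi
                rw [(mem_filter.1 hi).2]
            _ = ((F.filter (fun i => pd n v (β i) = k)).card : ℝ) * (2048 / (k : ℝ) ^ 3) := by
                rw [sum_const, nsmul_eq_mul]
            _ ≤ (12 * k) * (2048 / (k : ℝ) ^ 3) := by
                have := hdir k hk1
                gcongr
            _ = 24576 * ((k : ℝ) ^ 2)⁻¹ := by
                field_simp
                ring
      _ = 24576 * ∑ k ∈ Ioc M N, ((k : ℝ) ^ 2)⁻¹ := by rw [mul_sum]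
      _ ≤ 24576 * ((M : ℝ)⁻¹ - (N : ℝ)⁻¹) := by
          have := sum_Ioc_inv_sq_le_sub (α := ℝ) (k := M) (n := N) (by omega) (by omega)
          gcongr
      _ ≤ 40000 / M := by
          have h1 : (0 : ℝ) ≤ (N : ℝ)⁻¹ := by positivity
          have h2 : (0 : ℝ) ≤ (M : ℝ)⁻¹ := by positivity
          rw [div_eq_mul_inv]
          linarith
  calc ∑ i ∈ F, (∑ z ∈ i.filter (fun z => z < v), lamV n V q z) ^ 3 ≤
      ∑ i ∈ F, (2048 / (pd n v (β i) : ℝ) ^ 3 + 32 * Lg ^ 3 / (n : ℝ) ^ 3) := sum_le_sum hcube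
    _ = (∑ i ∈ F, 2048 / (pd n v (β i) : ℝ) ^ 3) + (F.card : ℝ) * (32 * Lg ^ 3 / (n : ℝ) ^ 3) := by
      rw [sum_add_distrib, sum_const, nsmul_eq_mul]
    _ ≤ 40000 / M + (n : ℝ) ^ 2 * (32 * Lg ^ 3 / (n : ℝ) ^ 3) := by gcongr
    _ = 40000 / M + 32 * Lg ^ 3 / n := by
      congr 1
      field_simp
    _ ≤ 40000 / M + 100 * Lg ^ 3 / n := by
      gcongr
      norm_num

end

end GPG
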